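import Mathlib
import Pool.Agent.Lib.MP_a5a406_al.Reduction

/-!
# Reduction of Q1 to simple groups generated by an element of order 4 and an involution

Let `G` be a periodic group and `i` an involution of `G` whose centraliser is a locally cyclic
2-group.  The elements of odd order inverted by `i` form a subgroup of `G` if and only if there are
no `c, t` in `G` with `c ^ 2 = i` and `t` an involution such that `⟨c, t⟩` is a simple group in which
`i` has infinite centraliser.
-/

set_option autoImplicit false

namespace Pool.Agent.Results.MP_a5a406_al.SimpleReduction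

/-- `I_G(i)` is a subgroup iff `G` has no simple subgroup `⟨c, t⟩`, `c ^ 2 = i`, `t` an involution,
in which the centraliser of `i` is infinite. -/
theorem result (G : Type*) [Group G] (htors : Monoid.IsTorsion G)
    (i : G) (hi : orderOf i = 2)
    (hp : IsPGroup 2 (Subgroup.centralizer ({i} : Set G)))
    (hc : ∀ a ∈ Subgroup.centralizer ({i} : Set G), ∀ b ∈ Subgroup.centralizer ({i} : Set G),
      ∃ c ∈ Subgroup.centralizer ({i} : Set G),
        a ∈ Subgroup.zpowers c ∧ b ∈ Subgroup.zpowers c) :
    (∃ H : Subgroup G, (H : Set G) = {g : G | Odd (orderOf g) ∧ i * g * i⁻¹ = g⁻¹}) ↔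
    ¬ ∃ c t : G, c ^ 2 = i ∧ orderOf t = 2 ∧
        IsSimpleGroup (Subgroup.closure ({c, t} : Set G)) ∧
        Infinite (↥(Subgroup.closure ({c, t} : Set G) ⊓ Subgroup.centralizer ({i} : Set G))) :=
  (Pool.Agent.Lib.MP_a5a406_al.Hyp.mk htors hi hp hc).reduction

end Pool.Agent.Results.MP_a5a406_al.SimpleReduction
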