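import Mathlib
import Pool.Agent.Lib.MP_a5a406_al.TheoremA

/-!
# Q1 for uncountable groups

Let `G` be an uncountable periodic group and `i` an involution of `G` whose centraliser is a
locally cyclic 2-group. Then the elements of odd order inverted by `i` form a subgroup.
-/

set_option autoImplicit false

namespace Pool.Agent.Results.MP_a5a406_al.UncountableGroups

/-- Q1 holds for every uncountable group (in any universe). -/
theorem result (G : Type*) [Group G] [Uncountable G] (htors : Monoid.IsTorsion G)
    (i : G) (hi : orderOf i = 2)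
    (hp : IsPGroup 2 (Subgroup.centralizer ({i} : Set G)))
    (hc : ∀ a ∈ Subgroup.centralizer ({i} : Set G), ∀ b ∈ Subgroup.centralizer ({i} : Set G),
      ∃ c ∈ Subgroup.centralizer ({i} : Set G),
        a ∈ Subgroup.zpowers c ∧ b ∈ Subgroup.zpowers c) :
    ∃ H : Subgroup G, (H : Set G) = {g : G | Odd (orderOf g) ∧ i * g * i⁻¹ = g⁻¹} :=
  (Pool.Agent.Lib.MP_a5a406_al.Hyp.mk htors hi hp hc).theoremA (Or.inl inferInstance)

end Pool.Agent.Results.MP_a5a406_al.UncountableGroups
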